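import Pool.Agent.Lib_helper51.TM32.NDefs
import Pool.Agent.Lib_helper99.TM32.N1b

/-!
TM32, phase 2, block N2a: the quartic character and the Satake parameters.
-/

set_option autoImplicit false

namespace Pool.Agent.TM32

open Zsqrtd

/-! STUB (block N1b): delete this theorem and import the proved file -/

/-! END OF STUB -/

/-- the character with values in the Gaussian integers, as a pair -/
def n2g (a b : ℤ) : ℤ × ℤ :=
  if a % 2 = 0 then (0, 0)
  else if b % 4 = 0 then (1, 0)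
  else if b % 4 = 2 then (-1, 0)
  else if (a * b) % 4 = 1 then (0, 1)
  else (0, -1)

theorem n2g_kap (x : Zs) :
    kap x = ((n2g x.re x.im).1 : ℂ) + ((n2g x.re x.im).2 : ℂ) * Complex.I := by
  unfold kap n2g
  split_ifs <;> simp

theorem n2g_mod (a b : ℤ) : n2g a b = n2g (a % 4) (b % 4) := by
  unfold n2g
  have h1 : a % 4 % 2 = a % 2 := Int.emod_emod_of_dvd a (by norm_num)
  have h2 : b % 4 % 4 = b % 4 := Int.emod_emod_of_dvd b (by norm_num)
  have h3 : a % 4 * (b % 4) % 4 = a * b % 4 := (Int.mul_emod a b 4).symm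
  rw [h1, h2, h3]

theorem n2g_mulFin : ∀ a b c d : Fin 4,
    n2g (((a : ℕ) : ℤ) * ((c : ℕ) : ℤ) - 2 * ((b : ℕ) : ℤ) * ((d : ℕ) : ℤ))
        (((a : ℕ) : ℤ) * ((d : ℕ) : ℤ) + ((b : ℕ) : ℤ) * ((c : ℕ) : ℤ)) =
      ((n2g ((a : ℕ) : ℤ) ((b : ℕ) : ℤ)).1 * (n2g ((c : ℕ) : ℤ) ((d : ℕ) : ℤ)).1 -
        (n2g ((a : ℕ) : ℤ) ((b : ℕ) : ℤ)).2 * (n2g ((c : ℕ) : ℤ) ((d : ℕ) : ℤ)).2,
       (n2g ((a : ℕ) : ℤ) ((b : ℕ) : ℤ)).1 * (n2g ((c : ℕ) : ℤ) ((d : ℕ) : ℤ)).2 +
        (n2g ((a : ℕ) : ℤ) ((b : ℕ) : ℤ)).2 * (n2g ((c : ℕ) : ℤ) ((d : ℕ) : ℤ)).1) := by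
  decide

theorem n2g_fin (a : ℤ) : ∃ k : Fin 4, a % 4 = ((k : ℕ) : ℤ) :=
  ⟨⟨(a % 4).toNat, by omega⟩, by simp only; omega⟩

theorem n2g_mul (a b c d : ℤ) : n2g (a * c - 2 * b * d) (a * d + b * c) =
    ((n2g a b).1 * (n2g c d).1 - (n2g a b).2 * (n2g c d).2,
      (n2g a b).1 * (n2g c d).2 + (n2g a b).2 * (n2g c d).1) := by
  obtain ⟨k1, h1⟩ := n2g_fin a
  obtain ⟨k2, h2⟩ := n2g_fin b
  obtain ⟨k3, h3⟩ := n2g_fin c
  obtain ⟨k4, h4⟩ := n2g_fin d
  have e1 : (a * c - 2 * b * d) % 4 =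
      (((k1 : ℕ) : ℤ) * ((k3 : ℕ) : ℤ) - 2 * ((k2 : ℕ) : ℤ) * ((k4 : ℕ) : ℤ)) % 4 := by
    rw [← h1, ← h2, ← h3, ← h4]
    exact Int.ModEq.sub (Int.ModEq.mul (Int.mod_modEq a 4).symm (Int.mod_modEq c 4).symm)
      (Int.ModEq.mul (Int.ModEq.mul rfl (Int.mod_modEq b 4).symm) (Int.mod_modEq d 4).symm)
  have e2 : (a * d + b * c) % 4 =
      (((k1 : ℕ) : ℤ) * ((k4 : ℕ) : ℤ) + ((k2 : ℕ) : ℤ) * ((k3 : ℕ) : ℤ)) % 4 := by
    rw [← h1, ← h2, ← h3, ← h4]
    exact Int.ModEq.add (Int.ModEq.mul (Int.mod_modEq a 4).symm (Int.mod_modEq d 4).symm)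
      (Int.ModEq.mul (Int.mod_modEq b 4).symm (Int.mod_modEq c 4).symm)
  rw [n2g_mod (a * c - 2 * b * d), e1, e2, ← n2g_mod, n2g_mulFin, n2g_mod a b, n2g_mod c d,
    h1, h2, h3, h4]

theorem kap_mul (x y : Zs) : kap (x * y) = kap x * kap y := by
  rw [n2g_kap, n2g_kap x, n2g_kap y]
  have h1 : (x * y).re = x.re * y.re - 2 * x.im * y.im := by
    simp only [Zsqrtd.re_mul]; ring
  have h2 : (x * y).im = x.re * y.im + x.im * y.re := by
    simp only [Zsqrtd.im_mul]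
  rw [h1, h2, n2g_mul]
  push_cast
  linear_combination -((n2g x.re x.im).2 : ℂ) * ((n2g y.re y.im).2 : ℂ) * Complex.I_mul_I

theorem kap_neg (x : Zs) : kap (-x) = kap x := by
  have h1 : (-x).re = -x.re := Zsqrtd.re_neg x
  have h2 : (-x).im = -x.im := Zsqrtd.im_neg x
  have e1 : (-x.re) % 2 = 0 ↔ x.re % 2 = 0 := by omega
  have e2 : (-x.im) % 4 = 0 ↔ x.im % 4 = 0 := by omega
  have e3 : (-x.im) % 4 = 2 ↔ x.im % 4 = 2 := by omega
  have e4 : (-x.re) * (-x.im) = x.re * x.im := by ring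
  unfold kap
  rw [h1, h2, e4]
  simp only [e1, e2, e3]

theorem kap_star (x : Zs) : kap (star x) = (starRingEnd ℂ) (kap x) := by
  have h1 : (star x).re = x.re := Zsqrtd.re_star x
  have h2 : (star x).im = -x.im := Zsqrtd.im_star x
  unfold kap
  rw [h1, h2]
  have e4 : x.re * (-x.im) = -(x.re * x.im) := by ring
  rw [e4]
  by_cases c1 : x.re % 2 = 0
  · simp [c1]
  · by_cases c2 : x.im % 4 = 0
    · have c2' : (-x.im) % 4 = 0 := by omega
      simp [c1, c2, c2']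
    · by_cases c3 : x.im % 4 = 2
      · have c3' : (-x.im) % 4 = 2 := by omega
        simp [c1, c3, c3']
      · have c2' : ¬ (-x.im) % 4 = 0 := by omega
        have c3' : ¬ (-x.im) % 4 = 2 := by omega
        have hodd : (x.re * x.im) % 2 = 1 := by
          rw [Int.mul_emod]
          have : x.re % 2 = 1 := by omega
          have h' : x.im % 2 = 1 := by omega
          rw [this, h']; norm_num
        by_cases c4 : (x.re * x.im) % 4 = 1
        · have c4' : ¬ (-(x.re * x.im)) % 4 = 1 := by omega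
          simp [c1, c2, c3, c4, c2', c3', c4']
        · have c4' : (-(x.re * x.im)) % 4 = 1 := by omega
          simp [c1, c2, c3, c4, c2', c3', c4']

theorem rr_prime {p : ℕ} (hp : p.Prime) (h : p % 8 = 1) : rr p = 2 ∨ rr p = -2 := by
  obtain ⟨ρ, hρ, hs⟩ := SN_split hp (Or.inl h)
  have h1 := hs 1 kap kap_neg
  rw [pow_one, Finset.sum_range_succ, Finset.sum_range_succ, Finset.sum_range_zero] at h1
  simp only [pow_zero, pow_one, one_mul, zero_add, Nat.sub_zero, Nat.sub_self, mul_one] at h1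
  have h2 : rr p = kap (star ρ) + kap ρ := by
    unfold rr
    rw [h1]; ring
  have hn : ρ.re * ρ.re + 2 * (ρ.im * ρ.im) = p := by
    rw [← hρ, Zsqrtd.norm_def]; ring
  have hre : ρ.re % 2 = 1 := by
    by_contra hc
    have h0 : ρ.re % 2 = 0 := by omega
    obtain ⟨c, hc⟩ := Int.dvd_of_emod_eq_zero h0
    have h3 : (ρ.re * ρ.re) % 2 = 0 := by rw [Int.mul_emod, h0]; norm_num
    omega
  have him : ρ.im % 2 = 0 := by
    by_contra hc
    have h0 : ρ.im % 2 = 1 := by omega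
    obtain ⟨c, hc⟩ : ∃ c, ρ.im = 2 * c + 1 := ⟨ρ.im / 2, by omega⟩
    obtain ⟨e, he⟩ : ∃ e, ρ.re = 2 * e + 1 := ⟨ρ.re / 2, by omega⟩
    obtain ⟨c', hc'⟩ : ∃ c', c * (c + 1) = 2 * c' := (Int.even_mul_succ_self c).two_dvd
    obtain ⟨e', he'⟩ : ∃ e', e * (e + 1) = 2 * e' := (Int.even_mul_succ_self e).two_dvd
    have h3 : ρ.im * ρ.im = 8 * c' + 1 := by rw [hc]; linear_combination 4 * hc'
    have h4 : ρ.re * ρ.re = 8 * e' + 1 := by rw [he]; linear_combination 4 * he'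
    omega
  have hk : kap ρ = 1 ∨ kap ρ = -1 := by
    unfold kap
    have c1 : ¬ ρ.re % 2 = 0 := by omega
    by_cases c2 : ρ.im % 4 = 0
    · left; simp [c1, c2]
    · right
      have c3 : ρ.im % 4 = 2 := by omega
      simp [c1, c3]
  rw [h2, kap_star]
  rcases hk with hk | hk
  · left; rw [hk]; simp; norm_num
  · right; rw [hk]; simp; norm_num

theorem aa_mul {m n : ℕ} (hm : m ≠ 0) (hn : n ≠ 0) : aa (m * n) = aa m * aa n := by
  unfold aa
  rw [if_neg hm, if_neg hn, if_neg (mul_ne_zero hm hn),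
    ((Nat.perm_primeFactorsList_mul hm hn).map av).prod_eq, List.map_append, List.prod_append]

theorem bb_mul {m n : ℕ} (hm : m ≠ 0) (hn : n ≠ 0) : bb (m * n) = bb m * bb n := by
  unfold bb
  rw [if_neg hm, if_neg hn, if_neg (mul_ne_zero hm hn),
    ((Nat.perm_primeFactorsList_mul hm hn).map bv).prod_eq, List.map_append, List.prod_append]

theorem n2_rr_half {p : ℕ} (hp : p.Prime) (h : p % 8 = 1) : rr p / 2 = 1 ∨ rr p / 2 = -1 := by
  rcases rr_prime hp h with h1 | h1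
  · left; rw [h1]; norm_num
  · right; rw [h1]; norm_num

theorem n2_av_le {p : ℕ} (hp : p.Prime) : ‖av p‖ ≤ 1 := by
  unfold av
  split_ifs with h1 h2 h3
  · rcases n2_rr_half hp h1 with h | h <;> rw [h] <;> simp
  · simp
  · simp
  · simp

theorem n2_bv_le {p : ℕ} (hp : p.Prime) : ‖bv p‖ ≤ 1 := by
  unfold bv
  split_ifs with h1 h2 h3
  · rcases n2_rr_half hp h1 with h | h <;> rw [h] <;> simp
  · simp
  · simp
  · simp

theorem n2_prod_le (l : List ℕ) (f : ℕ → ℂ) (h : ∀ p ∈ l, ‖f p‖ ≤ 1) :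
    ‖(l.map f).prod‖ ≤ 1 := by
  induction l with
  | nil => simp
  | cons a t ih =>
    rw [List.map_cons, List.prod_cons, _root_.norm_mul]
    exact mul_le_one₀ (h a List.mem_cons_self) (norm_nonneg _)
      (ih fun p hp => h p (List.mem_cons_of_mem _ hp))

theorem aa_le (n : ℕ) : ‖aa n‖ ≤ 1 := by
  unfold aa
  split_ifs with h
  · simp
  · exact n2_prod_le _ _ fun p hp => n2_av_le (Nat.prime_of_mem_primeFactorsList hp)

theorem bb_le (n : ℕ) : ‖bb n‖ ≤ 1 := by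
  unfold bb
  split_ifs with h
  · simp
  · exact n2_prod_le _ _ fun p hp => n2_bv_le (Nat.prime_of_mem_primeFactorsList hp)

theorem n2_aa_pow {p k : ℕ} (hp : p.Prime) : aa (p ^ k) = av p ^ k := by
  unfold aa
  rw [if_neg (pow_ne_zero _ hp.ne_zero), hp.primeFactorsList_pow, List.map_replicate,
    List.prod_replicate]

theorem n2_bb_pow {p k : ℕ} (hp : p.Prime) : bb (p ^ k) = bv p ^ k := by
  unfold bb
  rw [if_neg (pow_ne_zero _ hp.ne_zero), hp.primeFactorsList_pow, List.map_replicate,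
    List.prod_replicate]

theorem n2_im_pow {z : ℂ} (h : z = 1 ∨ z = -1) (k : ℕ) : (z ^ k).im = 0 := by
  rcases h with h | h
  · rw [h]; simp
  · rw [h]
    rcases neg_one_pow_eq_or ℂ k with h' | h' <;> rw [h'] <;> simp

/-- values of `aa + bb` at prime powers -/
theorem ab_real (n : ℕ) (hn : IsPrimePow n) :
    (aa n + bb n).im = 0 ∧ |(aa n + bb n).re| ≤ 2 := by
  refine ⟨?_, ?_⟩
  · obtain ⟨p, k, hp, hk, rfl⟩ := (isPrimePow_nat_iff n).1 hn
    rw [n2_aa_pow hp, n2_bb_pow hp]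
    unfold av bv
    split_ifs with h1 h2 h3
    · rw [Complex.add_im, n2_im_pow (n2_rr_half hp h1)]; simp
    · have : (-Complex.I) ^ k = (starRingEnd ℂ) (Complex.I ^ k) := by
        rw [map_pow, Complex.conj_I]
      rw [this, Complex.add_conj]
      simp
    · rw [Complex.add_im, n2_im_pow (Or.inl rfl), n2_im_pow (Or.inr rfl)]; simp
    · rw [zero_pow hk.ne']; simp
  · calc |(aa n + bb n).re| ≤ ‖aa n + bb n‖ := Complex.abs_re_le_norm _
      _ ≤ ‖aa n‖ + ‖bb n‖ := norm_add_le _ _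
      _ ≤ 2 := by linarith [aa_le n, bb_le n]

theorem ab_prime {p : ℕ} (hp : p.Prime) :
    aa p + bb p = if p % 8 = 1 then rr p else 0 := by
  have h1 := n2_aa_pow (k := 1) hp
  have h2 := n2_bb_pow (k := 1) hp
  rw [pow_one, pow_one] at h1 h2
  rw [h1, h2]
  unfold av bv
  split_ifs with h1 h2 h3
  · ring
  · ring
  · ring
  · ring

end Pool.Agent.TM32
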